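import Mathlib

namespace Pool.Agent.Results.MP_9356de_co.SumsAndProducts

open Finset

/-- digit expansions with digits in `S` in base `W` -/
def T (S : Finset ℕ) (W : ℕ) : ℕ → Finset ℕ
  | 0 => {0}
  | n+1 => image₂ (fun x y => x + W*y) S (T S W n)

/-- the set of values `a x + b y` -/
def F (a b : ℤ) (X : Finset ℕ) : Finset ℤ :=
  image₂ (fun x y : ℕ => a*(x:ℤ)+b*(y:ℤ)) X X

lemma F_succ (S : Finset ℕ) (W n : ℕ) (a b : ℤ) : F a b (T S W (n+1)) =
    image₂ (fun p q : ℤ => p + W*q) (F a b S) (F a b (T S W n)) := by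
  ext z
  simp only [F, T, mem_image₂]
  constructor
  · rintro ⟨_, ⟨x, hx, y, hy, rfl⟩, _, ⟨x', hx', y', hy', rfl⟩, rfl⟩
    exact ⟨_, ⟨x,hx,x',hx',rfl⟩, _, ⟨y,hy,y',hy',rfl⟩, by push_cast; ring⟩
  · rintro ⟨_, ⟨x,hx,x',hx',rfl⟩, _, ⟨y,hy,y',hy',rfl⟩, rfl⟩
    exact ⟨_, ⟨x,hx,y,hy,rfl⟩, _, ⟨x',hx',y',hy',rfl⟩, by push_cast; ring⟩

lemma F_le (S : Finset ℕ) (W n : ℕ) (a b : ℤ) :
    (F a b (T S W n)).card ≤ (F a b S).card ^ n := by
  induction n with
  | zero => simp [T, F]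
  | succ n ih =>
    rw [F_succ, pow_succ']
    exact (card_image₂_le _ _ _).trans (Nat.mul_le_mul_left _ ih)

lemma F_ge (S : Finset ℕ) (W n : ℕ) (a b : ℤ) (h : ∀ z ∈ F a b S, 0 ≤ z ∧ z < (W:ℤ)) :
    (F a b S).card ^ n ≤ (F a b (T S W n)).card := by
  induction n with
  | zero => simp [T, F]
  | succ n ih =>
    rw [F_succ, pow_succ', card_image₂_iff.2]
    · exact Nat.mul_le_mul_left _ ih
    · rintro ⟨p, q⟩ hp ⟨p', q'⟩ hp' e
      have h1 := h p (by simpa using hp.1)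
      have h2 := h p' (by simpa using hp'.1)
      simp only at e
      have e3 : p = p' := by
        have := congrArg (fun z => z % (W:ℤ)) e
        simp only [Int.add_mul_emod_self_left] at this
        rwa [Int.emod_eq_of_lt h1.1 h1.2, Int.emod_eq_of_lt h2.1 h2.2] at this
      subst e3
      have hW : (W:ℤ) ≠ 0 := by omega
      have e4 : (W:ℤ) * q = W * q' := by linarith
      rw [mul_left_cancel₀ hW e4]

lemma zero_mem_T (S : Finset ℕ) (W n : ℕ) (h : 0 ∈ S) : 0 ∈ T S W n := by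
  induction n with
  | zero => simp [T]
  | succ n ih =>
    simp only [T, mem_image₂]
    exact ⟨0, h, 0, ih, by simp⟩

/-- Conway's set -/
def C0 : Finset ℕ := {0,2,3,4,7,11,12,14}

lemma E_sum (n : ℕ) : 26^n ≤ (image₂ (fun a b : ℕ => a + b) (T C0 29 n) (T C0 29 n)).card := by
  have h1 : (F 1 1 C0).card = 26 := by decide
  have h2 := F_ge C0 29 n 1 1 (by decide)
  rw [h1] at h2
  refine h2.trans ?_
  have : F 1 1 (T C0 29 n) ⊆
      (image₂ (fun a b : ℕ => a + b) (T C0 29 n) (T C0 29 n)).image (fun n : ℕ => (n:ℤ)) := by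
    intro z hz
    simp only [F, mem_image₂] at hz
    obtain ⟨x, hx, y, hy, rfl⟩ := hz
    simp only [mem_image, mem_image₂]
    exact ⟨x+y, ⟨x, hx, y, hy, rfl⟩, by push_cast; ring⟩
  exact (card_le_card this).trans card_image_le

lemma E_diff (n : ℕ) : (F 1 (-1) (T C0 29 n)).card ≤ 25^n := by
  have h1 : (F 1 (-1) C0).card = 25 := by decide
  have h2 := F_le C0 29 n 1 (-1)
  rwa [h1] at h2

lemma E_zero (n : ℕ) : 0 ∈ T C0 29 n := zero_mem_T _ _ _ (by decide)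

lemma E_two (n : ℕ) : 2 ∈ T C0 29 (n+1) := by
  have : (0:ℕ) ∈ T C0 29 n := zero_mem_T _ _ _ (by decide)
  simp only [T, mem_image₂]
  exact ⟨2, by decide, 0, this, by simp⟩

/-- interval with two points removed -/
def S (v : ℕ) : Finset ℕ := ((range (4*v+1)).erase v).erase (4*v-1)

lemma mem_S (v x : ℕ) : x ∈ S v ↔ x ≠ 4*v-1 ∧ x ≠ v ∧ x < 4*v+1 := by
  simp [S]

lemma repr (v : ℕ) (hv : 2 ≤ v) (n : ℕ) (hn : n ≤ (1+v)*(4*v)) (hn' : n ≠ (1+v)*(4*v)-1) :
    ∃ a ∈ S v, ∃ b ∈ S v, a + v*b = n := by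
  have hd := Nat.div_add_mod n v
  have hm := Nat.mod_lt n (show 0 < v by omega)
  set b0 := n / v with hb0
  set a0 := n % v with ha0
  have hK : (1+v)*(4*v) = 4*v + v*(4*v) := by ring
  by_cases hbig : 4*v + 1 ≤ b0
  · -- large n
    have h1 : v * (4*v+1) ≤ v * b0 := Nat.mul_le_mul_left _ hbig
    have h2 : v * (4*v+1) = v*(4*v) + v := by ring
    by_cases hv1 : n = v*(4*v) + v
    · refine ⟨3*v, (mem_S _ _).2 ⟨by omega, by omega, by omega⟩, 4*v-2, (mem_S _ _).2 ⟨by omega, by omega, by omega⟩, ?_⟩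
      obtain ⟨b, hb⟩ : ∃ b, 4*v = b + 2 := ⟨4*v-2, by omega⟩
      have : v * (b+2) = v*b + 2*v := by ring
      rw [hv1, hb, this]
      have : b + 2 - 2 = b := by omega
      rw [this]
      omega
    · refine ⟨n - v*(4*v), (mem_S _ _).2 ⟨by omega, by omega, by omega⟩, 4*v, (mem_S _ _).2 ⟨by omega, by omega, by omega⟩, ?_⟩
      omega
  · by_cases h1 : b0 = v
    · by_cases h2 : a0 = 0
      · refine ⟨2*v, (mem_S _ _).2 ⟨by omega, by omega, by omega⟩, v-2, (mem_S _ _).2 ⟨by omega, by omega, by omega⟩, ?_⟩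
        obtain ⟨u, hu⟩ : ∃ u, v = u + 2 := ⟨v-2, by omega⟩
        rw [h1, h2] at hd
        have : v * v = v*(v-2) + 2*v := by
          rw [hu]; have : u + 2 - 2 = u := by omega
          rw [this]; ring
        omega
      · refine ⟨a0+v, (mem_S _ _).2 ⟨by omega, by omega, by omega⟩, v-1, (mem_S _ _).2 ⟨by omega, by omega, by omega⟩, ?_⟩
        obtain ⟨u, hu⟩ : ∃ u, v = u + 1 := ⟨v-1, by omega⟩
        rw [h1] at hd
        have : v * v = v*(v-1) + v := by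
          rw [hu]; have : u + 1 - 1 = u := by omega
          rw [this]; ring
        omega
    · by_cases h3 : b0 = 4*v-1
      · by_cases h2 : a0 = 0
        · refine ⟨2*v, (mem_S _ _).2 ⟨by omega, by omega, by omega⟩, 4*v-3, (mem_S _ _).2 ⟨by omega, by omega, by omega⟩, ?_⟩
          have : v * (4*v-1) = v*(4*v-3) + 2*v := by
            obtain ⟨u, hu⟩ : ∃ u, 4*v = u + 3 := ⟨4*v-3, by omega⟩
            rw [hu]
            have e1 : u + 3 - 3 = u := by omega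
            have e2 : u + 3 - 1 = u + 2 := by omega
            rw [e1, e2]; ring
          rw [h3] at hd
          omega
        · refine ⟨a0+v, (mem_S _ _).2 ⟨by omega, by omega, by omega⟩, 4*v-2, (mem_S _ _).2 ⟨by omega, by omega, by omega⟩, ?_⟩
          have : v * (4*v-1) = v*(4*v-2) + v := by
            obtain ⟨u, hu⟩ : ∃ u, 4*v = u + 2 := ⟨4*v-2, by omega⟩
            rw [hu]
            have e1 : u + 2 - 2 = u := by omega
            have e2 : u + 2 - 1 = u + 1 := by omega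
            rw [e1, e2]; ring
          rw [h3] at hd
          omega
      · refine ⟨a0, (mem_S _ _).2 ⟨by omega, by omega, by omega⟩, b0, (mem_S _ _).2 ⟨by omega, by omega, by omega⟩, ?_⟩
        omega

lemma S_sum (v : ℕ) (hv : 2 ≤ v) : (1+v)*(4*v) ≤ (F 1 v (S v)).card := by
  have h1 : (((range ((1+v)*(4*v)+1)).erase ((1+v)*(4*v)-1)).image (fun n : ℕ => (n:ℤ))) ⊆
      F 1 v (S v) := by
    intro z hz
    simp only [mem_image, mem_erase, mem_range] at hz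
    obtain ⟨n, ⟨h1, h2⟩, rfl⟩ := hz
    obtain ⟨a, ha, b, hb, e⟩ := repr v hv n (by omega) h1
    simp only [F, mem_image₂]
    exact ⟨a, ha, b, hb, by rw [← e]; push_cast; ring⟩
  have h2 := card_le_card h1
  rw [card_image_of_injective _ Nat.cast_injective, card_erase_of_mem, card_range] at h2
  · omega
  · simp only [mem_range]; omega

lemma S_diff (v : ℕ) (hv : 2 ≤ v) : (F 1 (-(v:ℤ)) (S v)).card ≤ (1+v)*(4*v) - 1 := by
  have hpos : (0:ℤ) ≤ (v:ℤ)*(v:ℤ) := by positivity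
  have hv' : (2:ℤ) ≤ v := by exact_mod_cast hv
  have h1 : F 1 (-(v:ℤ)) (S v) ⊆
      ((Icc (-((v:ℤ)*(4*v))) (4*v)).erase (-((v:ℤ)*(4*v-1)))).erase (4*v-1) := by
    intro z hz
    simp only [F, mem_image₂] at hz
    obtain ⟨a, ha, b, hb, rfl⟩ := hz
    rw [mem_S] at ha hb
    have ha1 : (a:ℤ) ≤ 4*v := by omega
    have ha2 : (a:ℤ) ≠ 4*v-1 := by omega
    have ha3 : (a:ℤ) ≠ v := by omega
    have hb1 : (b:ℤ) ≤ 4*v := by omega
    have hb2 : (b:ℤ) ≠ 4*v-1 := by omega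
    have ha0 : (0:ℤ) ≤ a := by positivity
    have hb0 : (0:ℤ) ≤ b := by positivity
    simp only [mem_erase, mem_Icc]
    refine ⟨?_, ?_, ?_, ?_⟩
    · intro e
      rcases Nat.eq_zero_or_pos b with hb' | hb'
      · subst hb'
        apply ha2; push_cast at e; linarith
      · have : (1:ℤ) ≤ b := by exact_mod_cast hb'
        nlinarith
    · intro e
      rcases lt_trichotomy (b:ℤ) (4*v-1) with h | h | h
      · nlinarith
      · exact hb2 h
      · have : (b:ℤ) = 4*v := by omega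
        rw [this] at e
        apply ha3; linarith
    · nlinarith
    · nlinarith
  have h2 := card_le_card h1
  have m1 : (-((v:ℤ)*(4*v-1))) ∈ Icc (-((v:ℤ)*(4*v))) (4*v:ℤ) := by
    simp only [mem_Icc]; constructor <;> nlinarith
  have m2 : (4*v-1 : ℤ) ∈ (Icc (-((v:ℤ)*(4*v))) (4*v:ℤ)).erase (-((v:ℤ)*(4*v-1))) := by
    simp only [mem_erase, mem_Icc]
    refine ⟨?_, ?_, ?_⟩
    · intro e; nlinarith
    · nlinarith
    · linarith
  rw [card_erase_of_mem m2, card_erase_of_mem m1, Int.card_Icc] at h2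
  have : (4*v + 1 - -((v:ℤ)*(4*v))) = (((1+v)*(4*v)+1 : ℕ) : ℤ) := by push_cast; ring
  rw [this, Int.toNat_natCast] at h2
  omega

lemma S_diff' (v w : ℕ) (hw : 1 ≤ w) (hv : 2*w ≤ v) :
    (F 1 (-(w:ℤ)) (S v)).card ≤ (1+v)*(4*v) - 1 := by
  have h1 : F 1 (-(w:ℤ)) (S v) ⊆ Icc (-((w:ℤ)*(4*v))) (4*v) := by
    intro z hz
    simp only [F, mem_image₂] at hz
    obtain ⟨a, ha, b, hb, rfl⟩ := hz
    rw [mem_S] at ha hb
    have ha1 : (a:ℤ) ≤ 4*v := by omega
    have hb1 : (b:ℤ) ≤ 4*v := by omega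
    have ha0 : (0:ℤ) ≤ a := by positivity
    have hb0 : (0:ℤ) ≤ b := by positivity
    have hw0 : (0:ℤ) ≤ w := by positivity
    simp only [mem_Icc]
    constructor <;> nlinarith
  have h2 := card_le_card h1
  rw [Int.card_Icc] at h2
  have : (4*v + 1 - -((w:ℤ)*(4*v))) = (((1+w)*(4*v)+1 : ℕ) : ℤ) := by push_cast; ring
  rw [this, Int.toNat_natCast] at h2
  have h3 : (1+w)*(4*v) + 1 ≤ (1+v)*(4*v) - 1 := by
    obtain ⟨u, hu⟩ : ∃ u, v = w + u := ⟨v-w, by omega⟩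
    have h4 : (1+v)*(4*v) = (1+w)*(4*v) + u*(4*v) := by rw [hu]; ring
    have h5 : 1 * (4*1) ≤ u * (4*v) := Nat.mul_le_mul (by omega) (by omega)
    omega
  omega

lemma S_pair (k i j : ℕ) (hk : 1 ≤ k) (hi : i ≤ k) (hj : j ≤ k) :
    (F (2^i) (-2^j) (S (2^k))).card ≤ (1+2^k)*(4*2^k) - 1 := by
  have key : ∀ d, d ≤ k → (F 1 (-((2^d : ℕ):ℤ)) (S (2^k))).card ≤ (1+2^k)*(4*2^k) - 1 := by
    intro d hd
    rcases Nat.lt_or_ge d k with h | h
    · refine S_diff' _ _ Nat.one_le_two_pow ?_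
      rw [← pow_succ']
      exact Nat.pow_le_pow_right (by norm_num) h
    · have : d = k := le_antisymm hd h
      rw [this]
      refine S_diff _ ?_
      calc 2 = 2^1 := by norm_num
        _ ≤ 2^k := Nat.pow_le_pow_right (by norm_num) hk
  rcases le_total i j with h | h
  · obtain ⟨d, rfl⟩ := Nat.exists_eq_add_of_le h
    refine le_trans ?_ (key d (by omega))
    refine le_trans (card_le_card ?_) (card_image_le (f := fun z : ℤ => 2^i*z))
    intro z hz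
    simp only [F, mem_image₂] at hz
    obtain ⟨a, ha, b, hb, rfl⟩ := hz
    simp only [F, mem_image, mem_image₂]
    exact ⟨_, ⟨a, ha, b, hb, rfl⟩, by push_cast; ring⟩
  · obtain ⟨d, rfl⟩ := Nat.exists_eq_add_of_le h
    refine le_trans ?_ (key d (by omega))
    refine le_trans (card_le_card ?_) (card_image_le (f := fun z : ℤ => -2^j*z))
    intro z hz
    simp only [F, mem_image₂] at hz
    obtain ⟨a, ha, b, hb, rfl⟩ := hz
    simp only [F, mem_image, mem_image₂]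
    exact ⟨_, ⟨b, hb, a, ha, rfl⟩, by push_cast; ring⟩

lemma two_pow_odd (t t' a b : ℕ) (ha : a % 2 = 1) (hb : b % 2 = 1) (h : 2^t*a = 2^t'*b) :
    t = t' ∧ a = b := by
  rcases lt_trichotomy t t' with h1 | h1 | h1
  · exfalso
    obtain ⟨d, rfl⟩ := Nat.exists_eq_add_of_lt h1
    have : 2^(t+d+1)*b = 2^t*(2*(2^d*b)) := by ring
    rw [this] at h
    have := Nat.eq_of_mul_eq_mul_left (by positivity) h
    omega
  · subst h1
    exact ⟨rfl, Nat.eq_of_mul_eq_mul_left (by positivity) h⟩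
  · exfalso
    obtain ⟨d, rfl⟩ := Nat.exists_eq_add_of_lt h1
    have : 2^(t'+d+1)*a = 2^t'*(2*(2^d*a)) := by ring
    rw [this] at h
    have := Nat.eq_of_mul_eq_mul_left (by positivity) h
    omega

lemma pair_eq (B x y x' y' : ℕ) (hx : x ≤ B) (hy : y ≤ B) (hx' : x' ≤ B) (hy' : y' ≤ B)
    (h : (2*x+(2*(B*B)+1))*(2*y+(2*(B*B)+1)) = (2*x'+(2*(B*B)+1))*(2*y'+(2*(B*B)+1))) :
    (x = x' ∧ y = y') ∨ (x = y' ∧ y = x') := by
  have h1 : x*y ≤ B*B := Nat.mul_le_mul hx hy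
  have h2 : x'*y' ≤ B*B := Nat.mul_le_mul hx' hy'
  zify at h h1 h2 ⊢
  set c : ℤ := 2*(B*B)+1 with hc
  have e : 2*((x:ℤ)*y - x'*y') = c*((x'+y')-(x+y)) := by linarith
  have p1 : (0:ℤ) ≤ (x:ℤ)*y := by positivity
  have p2 : (0:ℤ) ≤ (x':ℤ)*y' := by positivity
  have pc : (0:ℤ) < c := by positivity
  have s : ((x':ℤ)+y')-(x+y) = 0 := by
    rcases lt_trichotomy (((x':ℤ)+y')-(x+y)) 0 with g | g | g
    · have : ((x':ℤ)+y')-(x+y) ≤ -1 := by omega
      nlinarith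
    · exact g
    · have : (1:ℤ) ≤ ((x':ℤ)+y')-(x+y) := by omega
      nlinarith
  rw [s, mul_zero] at e
  have e2 : (x:ℤ)*y = x'*y' := by linarith
  have e3 : ((x:ℤ)-x')*(x-y') = 0 := by
    have : (x':ℤ)+y' = x+y := by linarith
    linear_combination e2 * (-1) * (-1) * (-1) - (x:ℤ)*this
  rcases mul_eq_zero.1 e3 with g | g
  · left; constructor <;> linarith
  · right; constructor <;> linarith

/-- the final set -/
def A (E X : Finset ℕ) (c : ℕ) : Finset ℕ := image₂ (fun e x => 2^e*(2*x+c)) E X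

lemma exists_exp (K s : ℕ) (hs : 2 ≤ s) : ∃ D, K * (s-1)^D < s^D := by
  have h1 : ((s-1 : ℕ):ℝ)/(s:ℝ) < 1 := by
    rw [div_lt_one (by positivity)]
    exact_mod_cast (by omega : s-1 < s)
  have h0 : (0:ℝ) < 1/((K:ℝ)+1) := by positivity
  obtain ⟨D, hD⟩ := exists_pow_lt_of_lt_one h0 h1
  refine ⟨D, ?_⟩
  have hs0 : (0:ℝ) < (s:ℝ)^D := by positivity
  rw [div_pow, div_lt_div_iff₀ hs0 (by positivity)] at hD
  have : ((K * (s-1)^D : ℕ):ℝ) < ((s^D : ℕ):ℝ) := by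
    push_cast
    have : (0:ℝ) ≤ ((s-1:ℕ):ℝ)^D := by positivity
    nlinarith
  exact_mod_cast this

lemma add_part (E X : Finset ℕ) (c k s D : ℕ) (h0 : 0 ∈ E) (hk : k ∈ E)
    (hsum : s^D ≤ (F 1 ((2^k : ℕ):ℤ) X).card)
    (hdiff : ∀ i ∈ E, ∀ j ∈ E, (F (2^i) (-2^j) X).card ≤ (s-1)^D)
    (hD : E.card*E.card * (s-1)^D < s^D) :
    (image₂ (fun a b : ℕ => (a:ℤ) - b) (A E X c) (A E X c)).card <
      (image₂ (fun a b : ℕ => a + b) (A E X c) (A E X c)).card := by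
  have h1 : image₂ (fun a b : ℕ => (a:ℤ) - b) (A E X c) (A E X c) ⊆
      (E ×ˢ E).biUnion (fun p => (F (2^p.1) (-2^p.2) X).image
        (fun z => 2*z + (2^p.1 - 2^p.2)*(c:ℤ))) := by
    intro z hz
    simp only [A, mem_image₂] at hz
    obtain ⟨_, ⟨e, he, x, hx, rfl⟩, _, ⟨e', he', x', hx', rfl⟩, rfl⟩ := hz
    simp only [mem_biUnion, mem_product, mem_image, F, mem_image₂]
    exact ⟨(e, e'), ⟨he, he'⟩, _, ⟨x, hx, x', hx', rfl⟩, by push_cast; ring⟩
  have h2 : ((E ×ˢ E).biUnion (fun p => (F (2^p.1) (-2^p.2) X).image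
        (fun z => 2*z + (2^p.1 - 2^p.2)*(c:ℤ)))).card ≤ (E ×ˢ E).card * (s-1)^D := by
    apply card_biUnion_le_card_mul
    intro p hp
    rw [mem_product] at hp
    exact card_image_le.trans (hdiff _ hp.1 _ hp.2)
  have h3 : (F 1 ((2^k : ℕ):ℤ) X).image (fun z => 2*z + (1+((2^k : ℕ):ℤ))*(c:ℤ)) ⊆
      (image₂ (fun a b : ℕ => a + b) (A E X c) (A E X c)).image (fun n : ℕ => (n:ℤ)) := by
    intro z hz
    simp only [F, mem_image, mem_image₂] at hz
    obtain ⟨_, ⟨x, hx, y, hy, rfl⟩, rfl⟩ := hz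
    simp only [A, mem_image, mem_image₂]
    exact ⟨_, ⟨_, ⟨0, h0, x, hx, rfl⟩, _, ⟨k, hk, y, hy, rfl⟩, rfl⟩, by push_cast; ring⟩
  have h4 := card_le_card h3
  rw [card_image_of_injective _ (by intro a b h; simp only at h; linarith),
    card_image_of_injective _ Nat.cast_injective] at h4
  rw [card_product] at h2
  exact ((card_le_card h1).trans h2).trans_lt (hD.trans_le (hsum.trans h4))

lemma mul_part (E X : Finset ℕ) (B : ℕ) (hX : X.Nonempty) (hB : ∀ x ∈ X, x ≤ B)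
    (h : 2 * (F 1 (-1) E).card < (image₂ (fun a b : ℕ => a + b) E E).card) :
    (image₂ (fun a b : ℕ => (a:ℚ) / b) (A E X (2*(B*B)+1)) (A E X (2*(B*B)+1))).card <
      (image₂ (fun a b : ℕ => a * b) (A E X (2*(B*B)+1)) (A E X (2*(B*B)+1))).card := by
  set c := 2*(B*B)+1 with hc
  set EE := image₂ (fun a b : ℕ => a + b) E E with hEE
  have h1 : image₂ (fun a b : ℕ => (a:ℚ) / b) (A E X c) (A E X c) ⊆
      ((F 1 (-1) E) ×ˢ (X ×ˢ X)).image
        (fun p => (2:ℚ)^p.1 * ((2*(p.2.1:ℚ)+c)/(2*(p.2.2:ℚ)+c))) := by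
    intro z hz
    simp only [A, mem_image₂] at hz
    obtain ⟨_, ⟨e, he, x, hx, rfl⟩, _, ⟨e', he', x', hx', rfl⟩, rfl⟩ := hz
    simp only [mem_image, mem_product, F, mem_image₂]
    refine ⟨((1:ℤ)*(e:ℤ) + (-1)*(e':ℤ), (x, x')), ⟨⟨e, he, e', he', rfl⟩, hx, hx'⟩, ?_⟩
    have : (1:ℤ)*(e:ℤ) + (-1)*(e':ℤ) = (e:ℤ) - e' := by ring
    simp only [this]
    rw [zpow_sub₀ (by norm_num), zpow_natCast, zpow_natCast]
    push_cast
    rw [div_mul_div_comm]
  have h2 := (card_le_card h1).trans card_image_le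
  rw [card_product, card_product] at h2
  have h3 : (EE ×ˢ (X ×ˢ X)).image (fun p => 2^p.1 * ((2*p.2.1+c)*(2*p.2.2+c))) ⊆
      image₂ (fun a b : ℕ => a * b) (A E X c) (A E X c) := by
    intro z hz
    simp only [mem_image, mem_product, hEE, mem_image₂] at hz
    obtain ⟨⟨t, x, y⟩, ⟨⟨e, he, e', he', ht⟩, hx, hy⟩, rfl⟩ := hz
    simp only at ht hx hy ⊢
    simp only [A, mem_image₂]
    exact ⟨_, ⟨e, he, x, hx, rfl⟩, _, ⟨e', he', y, hy, rfl⟩, by rw [← ht]; ring⟩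
  have h4 : (EE ×ˢ (X ×ˢ X)).card ≤ 2 *
      ((EE ×ˢ (X ×ˢ X)).image (fun p => 2^p.1 * ((2*p.2.1+c)*(2*p.2.2+c)))).card := by
    apply card_le_mul_card_image
    intro z hz
    simp only [mem_image] at hz
    obtain ⟨⟨t, x, y⟩, hp, hz⟩ := hz
    have : (EE ×ˢ (X ×ˢ X)).filter (fun p => 2^p.1 * ((2*p.2.1+c)*(2*p.2.2+c)) = z) ⊆
        {(t, (x, y)), (t, (y, x))} := by
      rintro ⟨t', x', y'⟩ hq
      rw [mem_filter] at hq
      obtain ⟨hq1, hq2⟩ := hq
      rw [mem_product, mem_product] at hp hq1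
      simp only at hp hq1 hq2 hz
      have e1 := hq2.trans hz.symm
      have o : ∀ u v : ℕ, ((2*u+c)*(2*v+c)) % 2 = 1 := by
        intro u v
        rw [hc]
        have : (2*u+(2*(B*B)+1))*(2*v+(2*(B*B)+1)) =
          2*((u+B*B)*(2*v+(2*(B*B)+1)) + (v+B*B)) + 1 := by ring
        omega
      obtain ⟨e2, e3⟩ := two_pow_odd _ _ _ _ (o x' y') (o x y) e1
      have e4 := pair_eq B x' y' x y (hB _ hq1.2.1) (hB _ hq1.2.2) (hB _ hp.2.1) (hB _ hp.2.2) e3
      simp only [mem_insert, mem_singleton, Prod.mk.injEq]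
      rcases e4 with ⟨a1, a2⟩ | ⟨a1, a2⟩
      · left; exact ⟨e2, a1, a2⟩
      · right; exact ⟨e2, a1, a2⟩
    exact (card_le_card this).trans card_le_two
  have h5 := card_le_card h3
  rw [card_product, card_product] at h4
  have hk : 0 < X.card * X.card := by
    have := hX.card_pos
    positivity
  have h6 := Nat.mul_lt_mul_of_pos_right h hk
  have h7 : 2 * (F 1 (-1) E).card * (X.card * X.card) = 2 * ((F 1 (-1) E).card * (X.card * X.card)) := by
    ring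
  omega

theorem main (E : Finset ℕ) (h0 : 0 ∈ E) (h1 : ∃ e ∈ E, 1 ≤ e)
    (h : 2 * (F 1 (-1) E).card < (image₂ (fun a b : ℕ => a + b) E E).card) :
    ∃ A : Finset ℕ, A.Nonempty ∧ (∀ a ∈ A, 0 < a) ∧
      (image₂ (fun a b : ℕ => (a:ℤ) - (b:ℤ)) A A).card < (image₂ (fun a b : ℕ => a + b) A A).card ∧
      (image₂ (fun a b : ℕ => (a:ℚ) / (b:ℚ)) A A).card <
        (image₂ (fun a b : ℕ => a * b) A A).card := by
  obtain ⟨k, hkE, hk⟩ := exists_max_image E id ⟨0, h0⟩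
  simp only [id] at hk
  obtain ⟨e1, he1, he1'⟩ := h1
  have hk1 : 1 ≤ k := he1'.trans (hk _ he1)
  have hv2 : 2 ≤ 2^k := by
    calc 2 = 2^1 := by norm_num
      _ ≤ 2^k := Nat.pow_le_pow_right (by norm_num) hk1
  set v := 2^k with hv
  set s := (1+v)*(4*v) with hs
  have hs2 : 2 ≤ s := by
    have : 1 * (4*1) ≤ (1+v)*(4*v) := Nat.mul_le_mul (by omega) (by omega)
    omega
  obtain ⟨D, hD⟩ := exists_exp (E.card*E.card) s hs2
  set X := T (S v) (s+1) D with hX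
  have hsum : s^D ≤ (F 1 ((2^k : ℕ):ℤ) X).card := by
    refine (Nat.pow_le_pow_left (S_sum v hv2) D).trans (F_ge _ _ _ _ _ ?_)
    intro z hz
    simp only [F, mem_image₂] at hz
    obtain ⟨a, ha, b, hb, rfl⟩ := hz
    rw [mem_S] at ha hb
    have ha' : a ≤ 4*v := by omega
    have hb' : b ≤ 4*v := by omega
    have : a + v*b ≤ s := by
      have := Nat.mul_le_mul_left v hb'
      have e : s = 4*v + v*(4*v) := by rw [hs]; ring
      omega
    have e : (1:ℤ)*(a:ℤ) + ((2^k:ℕ):ℤ)*(b:ℤ) = ((a + v*b : ℕ):ℤ) := by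
      rw [← hv]; push_cast; ring
    rw [e]
    constructor
    · positivity
    · exact_mod_cast Nat.lt_succ_of_le this
  have hdiff : ∀ i ∈ E, ∀ j ∈ E, (F (2^i) (-2^j) X).card ≤ (s-1)^D := by
    intro i hi j hj
    exact (F_le _ _ _ _ _).trans (Nat.pow_le_pow_left (S_pair k i j hk1 (hk _ hi) (hk _ hj)) D)
  have hXn : X.Nonempty := ⟨0, zero_mem_T _ _ _ ((mem_S _ _).2 ⟨by omega, by omega, by omega⟩)⟩
  obtain ⟨B, -, hB⟩ := exists_max_image X id hXn
  simp only [id] at hB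
  refine ⟨A E X (2*(B*B)+1), ?_, ?_, add_part E X _ k s D h0 hkE hsum hdiff hD,
    mul_part E X B hXn hB h⟩
  · obtain ⟨x, hx⟩ := hXn
    exact ⟨_, mem_image₂_of_mem h0 hx⟩
  · intro a ha
    simp only [A, mem_image₂] at ha
    obtain ⟨e, -, x, -, rfl⟩ := ha
    positivity

theorem main' (n : ℕ) (hn : 2 * 25^(n+1) < 26^(n+1)) :
    ∃ A : Finset ℕ, A.Nonempty ∧ (∀ a ∈ A, 0 < a) ∧
      (image₂ (fun a b : ℕ => (a:ℤ) - (b:ℤ)) A A).card < (image₂ (fun a b : ℕ => a + b) A A).card ∧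
      (image₂ (fun a b : ℕ => (a:ℚ) / (b:ℚ)) A A).card <
        (image₂ (fun a b : ℕ => a * b) A A).card := by
  refine main (T C0 29 (n+1)) (E_zero _) ⟨2, E_two n, by norm_num⟩ ?_
  have a1 := E_sum (n+1)
  have a2 := E_diff (n+1)
  omega

/-- There is a finite nonempty set of positive integers with more sums than differences and more
products than ratios. -/
theorem result : ∃ A : Finset ℕ, A.Nonempty ∧ (∀ a ∈ A, 0 < a) ∧
      (image₂ (fun a b : ℕ => (a:ℤ) - (b:ℤ)) A A).card < (image₂ (fun a b : ℕ => a + b) A A).card ∧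
      (image₂ (fun a b : ℕ => (a:ℚ) / (b:ℚ)) A A).card <
        (image₂ (fun a b : ℕ => a * b) A A).card :=
  main' 17 (by norm_num)

end Pool.Agent.Results.MP_9356de_co.SumsAndProducts
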